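import Mathlib
set_option autoImplicit false

/-!
Project NR (MP_4d246d_lc): real linear programs on which every mixture of `m` pivot rules that see
the names and the reduced costs of the improving constraints is exponential.
-/

namespace Pool.Agent.W292.NR

open Finset

/-- A linear program: maximise `c x` subject to `A x ≤ b` and `x ≥ 0`, with integer data,
rows `κ` and variables `ι`. -/
structure LP (κ ι : Type) where
  /-- the matrix -/
  A : κ → ι → ℤ
  /-- the right hand side -/
  b : κ → ℤ
  /-- the objective -/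
  c : ι → ℤ

section
variable {κ ι : Type} [Fintype ι]

/-- the value `c x` -/
def LP.value (P : LP κ ι) (x : ι → ℚ) : ℚ := ∑ j, (P.c j : ℚ) * x j

/-- the slack of a constraint: of the row `i`, or of the constraint `x j ≥ 0` -/
def LP.slack (P : LP κ ι) (x : ι → ℚ) : κ ⊕ ι → ℚ
  | Sum.inl i => (P.b i : ℚ) - ∑ j, (P.A i j : ℚ) * x j
  | Sum.inr j => x j

/-- the change of the slack of a constraint in direction `z` -/
def LP.rate (P : LP κ ι) (z : ι → ℚ) : κ ⊕ ι → ℚ
  | Sum.inl i => - ∑ j, (P.A i j : ℚ) * z j
  | Sum.inr j => z j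

/-- feasible points -/
def LP.Feasible (P : LP κ ι) (x : ι → ℚ) : Prop := ∀ t, 0 ≤ P.slack x t

/-- the constraint `t` is tight at `x`, and `z` is the direction in which its slack grows with rate
`1` while all other constraints tight at `x` stay tight -/
def LP.EdgeDir (P : LP κ ι) (x : ι → ℚ) (t : κ ⊕ ι) (z : ι → ℚ) : Prop :=
  P.slack x t = 0 ∧ P.rate z t = 1 ∧ ∀ s, P.slack x s = 0 → s ≠ t → P.rate z s = 0

/-- a nondegenerate vertex: feasible, as many tight constraints as variables, and each of them
can be left in a unique direction -/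
def LP.Vertex [Fintype κ] (P : LP κ ι) (x : ι → ℚ) : Prop :=
  P.Feasible x ∧ Fintype.card {t : κ ⊕ ι // P.slack x t = 0} = Fintype.card ι ∧
    ∀ t, P.slack x t = 0 → ∃! z, P.EdgeDir x t z

/-- `S` is the set of all pairs (name, reduced cost) of the tight constraints of positive reduced
cost at `x` (the reduced cost of `t` is the value of its direction) -/
def LP.Offers (P : LP κ ι) (name : κ ⊕ ι → ℕ) (x : ι → ℚ) (S : Finset (ℕ × ℚ)) : Prop :=
  ∀ p : ℕ × ℚ, p ∈ S ↔ 0 < p.2 ∧ ∃ t z, P.EdgeDir x t z ∧ name t = p.1 ∧ P.value z = p.2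

/-- the pivot step from `x` to `y` of the rule `r`: the rule chooses a name from the set of all
pairs (name, reduced cost) with positive reduced cost, and `y` is the last feasible point in the
direction of the constraint with this name -/
def LP.Pivot (P : LP κ ι) (name : κ ⊕ ι → ℕ) (r : Finset (ℕ × ℚ) → ℕ) (x y : ι → ℚ) : Prop :=
  ∃ (S : Finset (ℕ × ℚ)) (t : κ ⊕ ι) (z : ι → ℚ) (s : ℚ), P.Offers name x S ∧ S.Nonempty ∧
    name t = r S ∧ P.EdgeDir x t z ∧ 0 < P.value z ∧ 0 < s ∧ (∀ j, y j = x j + s * z j) ∧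
    P.Feasible y ∧ ∀ s' : ℚ, s < s' → ¬ P.Feasible (fun j => x j + s' * z j)

end

/-! ### Chains -/

/-- The cells `t < k` are partitioned into intervals: `t` lies in `[st t, st t + ln t)`. -/
structure Chains (k : ℕ) (st ln : ℕ → ℕ) : Prop where
  le : ∀ t < k, st t ≤ t
  lt : ∀ t < k, t < st t + ln t
  top : ∀ t < k, st t + ln t ≤ k
  same : ∀ t < k, ∀ u, st t ≤ u → u < st t + ln t → st u = st t ∧ ln u = ln t

/-- sum of the first `i` coordinates of the chain with start `a` at the vertex `v` -/
def psum (v : ℕ → Bool) (a : ℕ) : ℕ → ℚ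
  | 0 => 0
  | i + 1 => if v (a + i) then 3 ^ i - psum v a i else psum v a i

/-- the sign `-1` of a set bit -/
def sgn (b : Bool) : ℤ := if b then -1 else 1

/-- the sign `eps_t`: the product of the signs of the bits from `t` to the end of its chain -/
def eps (st ln : ℕ → ℕ) (v : ℕ → Bool) (t : ℕ) : ℤ := ∏ u ∈ Ico t (st t + ln t), sgn (v u)

/-- flip the bit `t` -/
def flipBit (v : ℕ → Bool) (t : ℕ) : ℕ → Bool := Function.update v t (!v t)

/-- The linear program of a family of chains. Variables (and rows) are indexed by `Fin k × Bool`: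
`(t, false)` is the real variable of the cell `t`, `(t, true)` its complement variable. -/
def chainLP (k : ℕ) (st : ℕ → ℕ) : LP (Fin k × Bool) (Fin k × Bool) where
  A := fun i j => match i.2, j.2 with
    | false, false => if j.1 = i.1 then 1 else if st i.1 ≤ j.1 ∧ j.1 < i.1 then 2 else 0
    | false, true => if st i.1 ≤ j.1 ∧ j.1 ≤ i.1 then -2 else 0
    | true, _ => if j = i then 1 else 0
  b := fun i => if i.2 then 1 else 3 ^ (i.1 - st i.1 : ℕ)
  c := fun j => if j.2 then -1 else 1

/-- the vertex with bits `v` -/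
def vert (k : ℕ) (st : ℕ → ℕ) (v : ℕ → Bool) : Fin k × Bool → ℚ := fun j =>
  if j.2 = false ∧ v j.1 = true then 3 ^ (j.1 - st j.1 : ℕ) - 2 * psum v (st j.1) (j.1 - st j.1)
  else 0

/-- the constraint of the real variable `t` which is tight at the vertex `v` -/
def prim (k : ℕ) (v : ℕ → Bool) (t : Fin k) : (Fin k × Bool) ⊕ (Fin k × Bool) :=
  if v t then Sum.inl (t, false) else Sum.inr (t, false)

/-- the distance `W_t` between the two constraints of the real variable `t` at the vertex `v` -/
def wid (st : ℕ → ℕ) (v : ℕ → Bool) (t : ℕ) : ℚ := 3 ^ (t - st t : ℕ) - 2 * psum v (st t) (t - st t)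

/-- direction of the edge of the real variable `t` at the vertex `v` -/
def dirR (k : ℕ) (st : ℕ → ℕ) (v : ℕ → Bool) (t : Fin k) : Fin k × Bool → ℚ := fun j =>
  if j.2 = false ∧ st j.1 = st t ∧ t ≤ j.1 then
    if j.1 = t then ((sgn (v t) : ℤ) : ℚ)
    else if v j.1 then -2 * ((∏ w ∈ Ico (t : ℕ) j.1, sgn (v w) : ℤ) : ℚ) else 0
  else 0

/-- direction of the edge of the complement variable `t` at the vertex `v` -/
def dirD (k : ℕ) (st : ℕ → ℕ) (v : ℕ → Bool) (t : Fin k) : Fin k × Bool → ℚ := fun j =>
  if j = (t, true) then 1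
  else if j.2 = false ∧ st j.1 = st t ∧ t ≤ j.1 ∧ v j.1 = true then
    2 * ((∏ w ∈ Ico (t : ℕ) j.1, sgn (v w) : ℤ) : ℚ)
  else 0

/-- the improving constraint of the cell `t` at the vertex `v` -/
def cand (k : ℕ) (st ln : ℕ → ℕ) (v : ℕ → Bool) (t : Fin k) : (Fin k × Bool) ⊕ (Fin k × Bool) :=
  if eps st ln v t = 1 then prim k v t else Sum.inr (t, true)

/-- the position of a constraint in the order of names; `o t` is the orientation of the chain of
`t` (`false`: the real variables come first, the least significant one first of all; `true`: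
they come last, the least significant one last of all) -/
def pos (k : ℕ) (st ln : ℕ → ℕ) (o : ℕ → Bool) : (Fin k × Bool) ⊕ (Fin k × Bool) → ℕ
  | Sum.inl (t, true) => 3 * k + t
  | Sum.inl (t, false) =>
      if o t then 3 * st t + ln t + 2 * (ln t - 1 - (t - st t)) + 1
      else 3 * st t + 2 * (t - st t) + 1
  | Sum.inr (t, false) =>
      if o t then 3 * st t + ln t + 2 * (ln t - 1 - (t - st t))
      else 3 * st t + 2 * (t - st t)
  | Sum.inr (t, true) =>
      if o t then 3 * st t + (t - st t)
      else 3 * st t + 2 * ln t + (t - st t)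

/-- the orientations are constant on chains -/
def OrientOK (k : ℕ) (st ln : ℕ → ℕ) (o : ℕ → Bool) : Prop :=
  ∀ t < k, ∀ u, st t ≤ u → u < st t + ln t → o u = o t

end Pool.Agent.W292.NR
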