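import Pool.Agent.W292.NR.Stm
set_option autoImplicit false

namespace Pool.Agent.W292.NR

open Finset

section lin
variable {κ ι : Type} [Fintype ι]

theorem rate_sub (P : LP κ ι) (z w : ι → ℚ) (t : κ ⊕ ι) :
    P.rate (z - w) t = P.rate z t - P.rate w t := by
  cases t with
  | inl i => simp only [LP.rate, Pi.sub_apply, mul_sub, sum_sub_distrib]; ring
  | inr j => simp [LP.rate]

theorem value_add (P : LP κ ι) (x z : ι → ℚ) (s : ℚ) :
    P.value (fun j => x j + s * z j) = P.value x + s * P.value z := by
  simp only [LP.value, mul_add, sum_add_distrib, mul_sum]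
  congr 1
  apply sum_congr rfl
  intros; ring

end lin

section geo
variable {k : ℕ} {st ln : ℕ → ℕ} (hS : S_SLACK) (hU : S_UNIQ) (hR : S_EDGER) (hD : S_EDGED)
  (hT : S_STEP) (hE : S_EPS) (hC : Chains k st ln)
include hS hC

theorem tight_iff (v : ℕ → Bool) (t : (Fin k × Bool) ⊕ (Fin k × Bool)) :
    (chainLP k st).slack (vert k st v) t = 0 ↔ ∃ u : Fin k, t = prim k v u ∨ t = Sum.inr (u, true) := by
  constructor
  · intro h
    rcases t with ⟨u, b⟩ | ⟨u, b⟩ <;> obtain ⟨h0, h1, h2, h3, h4⟩ := hS k st ln hC v u <;> cases b
    · rw [h2] at h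
      refine ⟨u, Or.inl ?_⟩
      by_cases hv : v u = true
      · simp [prim, hv]
      · rw [if_neg hv] at h; linarith
    · rw [h4] at h; norm_num at h
    · rw [h1] at h
      refine ⟨u, Or.inl ?_⟩
      by_cases hv : v u = true
      · rw [if_pos hv] at h; linarith
      · simp [prim, hv]
    · exact ⟨u, Or.inr rfl⟩
  · rintro ⟨u, h | h⟩ <;> obtain ⟨h0, h1, h2, h3, h4⟩ := hS k st ln hC v u <;> rw [h]
    · unfold prim
      by_cases hv : v u = true
      · rw [if_pos hv, h2, if_pos hv]
      · rw [if_neg hv, h1, if_neg hv]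
    · exact h3

theorem feasible_vert (v : ℕ → Bool) : (chainLP k st).Feasible (vert k st v) := by
  intro t
  rcases t with ⟨u, b⟩ | ⟨u, b⟩ <;> obtain ⟨h0, h1, h2, h3, h4⟩ := hS k st ln hC v u <;> cases b
  · rw [h2]; split_ifs <;> linarith
  · rw [h4]; norm_num
  · rw [h1]; split_ifs <;> linarith
  · rw [h3]

omit hS hC in
theorem prim_ne (v : ℕ → Bool) (u w : Fin k) : prim k v u ≠ Sum.inr (w, true) := by
  unfold prim
  split_ifs <;> simp

omit hS hC in
theorem prim_inj (v : ℕ → Bool) {u w : Fin k} (h : prim k v u = prim k v w) : u = w := by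
  unfold prim at h
  split_ifs at h <;> simp at h <;> exact h

include hU hR hD

theorem edge_prim (v : ℕ → Bool) (u : Fin k) (z : Fin k × Bool → ℚ) :
    (chainLP k st).EdgeDir (vert k st v) (prim k v u) z ↔ z = dirR k st v u := by
  obtain ⟨g1, g2, -⟩ := hR k st ln hC v u
  constructor
  · rintro ⟨-, h1, h2⟩
    have hz : z - dirR k st v u = 0 := by
      apply hU k st ln hC v
      · intro t
        rw [rate_sub, g1 t]
        by_cases htu : t = u
        · rw [htu, h1]; simp
        · rw [h2 _ ((tight_iff hS hC v _).2 ⟨t, Or.inl rfl⟩) (fun h => htu (prim_inj v h)), if_neg htu]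
          ring
      · intro t
        rw [rate_sub, g2 t, h2 _ ((tight_iff hS hC v _).2 ⟨t, Or.inr rfl⟩)
          (fun h => prim_ne v u t h.symm)]
        ring
    exact sub_eq_zero.1 hz
  · rintro rfl
    refine ⟨(tight_iff hS hC v _).2 ⟨u, Or.inl rfl⟩, by rw [g1]; simp, ?_⟩
    intro s hs hne
    obtain ⟨w, rfl | rfl⟩ := (tight_iff hS hC v _).1 hs
    · rw [g1, if_neg (fun h => hne (by rw [h]))]
    · exact g2 w

theorem edge_dummy (v : ℕ → Bool) (u : Fin k) (z : Fin k × Bool → ℚ) :
    (chainLP k st).EdgeDir (vert k st v) (Sum.inr (u, true)) z ↔ z = dirD k st v u := by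
  obtain ⟨g1, g2, -⟩ := hD k st ln hC v u
  constructor
  · rintro ⟨-, h1, h2⟩
    have hz : z - dirD k st v u = 0 := by
      apply hU k st ln hC v
      · intro t
        rw [rate_sub, g1 t, h2 _ ((tight_iff hS hC v _).2 ⟨t, Or.inl rfl⟩)
          (fun h => prim_ne v t u h)]
        ring
      · intro t
        rw [rate_sub, g2 t]
        by_cases htu : t = u
        · rw [htu, h1]; simp
        · rw [h2 _ ((tight_iff hS hC v _).2 ⟨t, Or.inr rfl⟩)
            (fun h => htu (by simpa using h)), if_neg htu]
          ring
    exact sub_eq_zero.1 hz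
  · rintro rfl
    refine ⟨(tight_iff hS hC v _).2 ⟨u, Or.inr rfl⟩, by rw [g2]; simp, ?_⟩
    intro s hs hne
    obtain ⟨w, rfl | rfl⟩ := (tight_iff hS hC v _).1 hs
    · exact g1 w
    · rw [g2, if_neg (fun h => hne (by rw [h]))]

theorem vertex_vert (v : ℕ → Bool) : (chainLP k st).Vertex (vert k st v) := by
  refine ⟨feasible_vert hS hC v, ?_, ?_⟩
  · symm
    apply Fintype.card_of_bijective (f := fun j : Fin k × Bool =>
      (⟨if j.2 then Sum.inr (j.1, true) else prim k v j.1, by
        rw [tight_iff hS hC]
        by_cases hj : j.2 = true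
        · exact ⟨j.1, Or.inr (by simp [hj])⟩
        · exact ⟨j.1, Or.inl (by simp [hj])⟩⟩ :
        {t // (chainLP k st).slack (vert k st v) t = 0}))
    constructor
    · rintro ⟨u, b⟩ ⟨w, c⟩ h
      simp only [Subtype.mk.injEq] at h
      cases b <;> cases c <;> simp only [Bool.false_eq_true, if_false, if_true] at h
      · rw [prim_inj v h]
      · exact absurd h (prim_ne v u w)
      · exact absurd h.symm (prim_ne v w u)
      · simpa using h
    · rintro ⟨t, ht⟩
      obtain ⟨u, rfl | rfl⟩ := (tight_iff hS hC v t).1 ht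
      · exact ⟨(u, false), by simp⟩
      · exact ⟨(u, true), by simp⟩
  · intro t ht
    obtain ⟨u, rfl | rfl⟩ := (tight_iff hS hC v t).1 ht
    · exact ⟨dirR k st v u, (edge_prim hS hU hR hD hC v u _).2 rfl,
        fun z hz => (edge_prim hS hU hR hD hC v u z).1 hz⟩
    · exact ⟨dirD k st v u, (edge_dummy hS hU hR hD hC v u _).2 rfl,
        fun z hz => (edge_dummy hS hU hR hD hC v u z).1 hz⟩

/-- the offers at a vertex -/
noncomputable def offer (k : ℕ) (st ln : ℕ → ℕ) (name : (Fin k × Bool) ⊕ (Fin k × Bool) → ℕ)
    (v : ℕ → Bool) : Finset (ℕ × ℚ) :=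
  univ.image (fun u : Fin k => (name (cand k st ln v u), (1 : ℚ)))

include hE

theorem offers_vert (name : (Fin k × Bool) ⊕ (Fin k × Bool) → ℕ) (v : ℕ → Bool) :
    (chainLP k st).Offers name (vert k st v) (offer k st ln name v) := by
  intro p
  unfold offer
  rw [mem_image]
  constructor
  · rintro ⟨u, -, rfl⟩
    refine ⟨by simp, ?_⟩
    rcases (hE k st ln hC v).1 u with h | h
    · refine ⟨prim k v u, dirR k st v u, (edge_prim hS hU hR hD hC v u _).2 rfl, ?_, ?_⟩
      · simp [cand, h]
      · rw [(hR k st ln hC v u).2.2, h]; simp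
    · refine ⟨Sum.inr (u, true), dirD k st v u, (edge_dummy hS hU hR hD hC v u _).2 rfl, ?_, ?_⟩
      · simp [cand, h]
      · rw [(hD k st ln hC v u).2.2, h]; simp
  · rintro ⟨h0, t, z, ht, hn, hv⟩
    obtain ⟨u, rfl | rfl⟩ := (tight_iff hS hC v t).1 ht.1
    · rw [edge_prim hS hU hR hD hC] at ht
      subst ht
      rw [(hR k st ln hC v u).2.2] at hv
      rcases (hE k st ln hC v).1 u with h | h
      · refine ⟨u, mem_univ _, ?_⟩
        ext
        · simp [cand, h, hn]
        · simp [← hv, h]
      · rw [h] at hv
        rw [← hv] at h0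
        norm_num at h0
    · rw [edge_dummy hS hU hR hD hC] at ht
      subst ht
      rw [(hD k st ln hC v u).2.2] at hv
      rcases (hE k st ln hC v).1 u with h | h
      · rw [h] at hv
        rw [← hv] at h0
        norm_num at h0
      · refine ⟨u, mem_univ _, ?_⟩
        ext
        · simp [cand, h, hn]
        · simp [← hv, h]

include hT

/-- a pivot of a rule choosing `prim t` flips the bit `t` -/
theorem pivot_iff (name : (Fin k × Bool) ⊕ (Fin k × Bool) → ℕ) (hn : Function.Injective name)
    (r : Finset (ℕ × ℚ) → ℕ) (v : ℕ → Bool) (t : Fin k) (ht : eps st ln v t = 1)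
    (hr : r (offer k st ln name v) = name (prim k v t)) (y : Fin k × Bool → ℚ) :
    (chainLP k st).Pivot name r (vert k st v) y ↔ y = vert k st (flipBit v t) := by
  have hfl := (hT k st ln hC v t).1
  have hinf := (hT k st ln hC v t).2
  have hw : 1 ≤ wid st v t := (hS k st ln hC v t).1
  have hfeas : (chainLP k st).Feasible (fun j => vert k st v j + wid st v t * dirR k st v t j) := by
    have := feasible_vert hS hC (flipBit v t)
    have e : vert k st (flipBit v t) = fun j => vert k st v j + wid st v t * dirR k st v t j :=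
      funext hfl
    rw [← e]; exact this
  constructor
  · rintro ⟨S, t', z, s, hO, -, hname, hedge, -, -, hy, hyf, hmax⟩
    have hSS : S = offer k st ln name v := by
      ext p
      rw [hO p, offers_vert hS hU hR hD hE hC name v p]
    rw [hSS, hr] at hname
    have htt := hn hname
    subst htt
    rw [edge_prim hS hU hR hD hC] at hedge
    subst hedge
    have hs : s = wid st v t := by
      rcases lt_trichotomy s (wid st v t) with h | h | h
      · exact absurd hfeas (hmax _ h)
      · exact h
      · refine absurd ?_ (hinf s h)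
        have : y = fun j => vert k st v j + s * dirR k st v t j := funext hy
        rw [← this]; exact hyf
    funext j
    rw [hy j, hs, hfl j]
  · rintro rfl
    refine ⟨offer k st ln name v, prim k v t, dirR k st v t, wid st v t,
      offers_vert hS hU hR hD hE hC name v, ⟨(name (cand k st ln v t), 1), ?_⟩, hr.symm,
      (edge_prim hS hU hR hD hC v t _).2 rfl, ?_, by linarith, hfl,
      feasible_vert hS hC _, hinf⟩
    · unfold offer; exact mem_image_of_mem _ (mem_univ t)
    · rw [(hR k st ln hC v t).2.2, ht]; norm_num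

theorem value_flip (v : ℕ → Bool) (t : Fin k) (ht : eps st ln v t = 1) :
    (chainLP k st).value (vert k st v) < (chainLP k st).value (vert k st (flipBit v t)) := by
  have e : vert k st (flipBit v t) = fun j => vert k st v j + wid st v t * dirR k st v t j :=
    funext (hT k st ln hC v t).1
  have hw : 1 ≤ wid st v t := (hS k st ln hC v t).1
  rw [e, value_add, (hR k st ln hC v t).2.2, ht]
  push_cast
  linarith

end geo

/-- the element of a given rank is unique -/
theorem rank_unique (Y : Finset ℕ) {y z : ℕ} (hy : y ∈ Y) (hz : z ∈ Y)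
    (h : (Y.filter (fun u => u < y)).card = (Y.filter (fun u => u < z)).card) : y = z := by
  by_contra hne
  wlog hlt : y < z generalizing y z
  · exact this hz hy h.symm (Ne.symm hne) (by omega)
  have : (Y.filter (fun u => u < y)).card < (Y.filter (fun u => u < z)).card := by
    apply card_lt_card
    refine ⟨fun u hu => ?_, fun hsub => ?_⟩
    · rw [mem_filter] at hu ⊢
      exact ⟨hu.1, by omega⟩
    · have := hsub (mem_filter.2 ⟨hy, hlt⟩)
      rw [mem_filter] at this
      omega
  omega

theorem cand_inj {k : ℕ} {st ln : ℕ → ℕ} (v : ℕ → Bool) {u w : Fin k}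
    (h : cand k st ln v u = cand k st ln v w) : u = w := by
  unfold cand at h
  split_ifs at h
  · exact prim_inj v h
  · exact absurd h (prim_ne v u w)
  · exact absurd h.symm (prim_ne v w u)
  · simpa using h

/-- the improving positions in the chain with start `A` -/
def eset (st ln : ℕ → ℕ) (v : ℕ → Bool) (A L : ℕ) : Finset ℕ :=
  (range L).filter (fun i => eps st ln v (A + i) = 1)

theorem card_Ico_filter (st ln : ℕ → ℕ) (v : ℕ → Bool) (A c : ℕ) :
    ((Ico A (A + c)).filter (fun t => eps st ln v t = 1)).card = (eset st ln v A c).card := by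
  unfold eset
  rw [← card_image_of_injective (s := (range c).filter _) (f := fun i => A + i)
    (fun x y h => by simpa using h)]
  congr 1
  ext t
  simp only [mem_filter, mem_Ico, mem_image, mem_range]
  constructor
  · rintro ⟨⟨h1, h2⟩, h3⟩
    exact ⟨t - A, ⟨by omega, by rw [show A + (t - A) = t by omega]; exact h3⟩, by omega⟩
  · rintro ⟨i, ⟨h1, h2⟩, rfl⟩
    exact ⟨⟨by omega, by omega⟩, h2⟩

theorem eset_filter (st ln : ℕ → ℕ) (v : ℕ → Bool) (A L i : ℕ) (hi : i ≤ L) :
    (eset st ln v A L).filter (fun j => j < i) = eset st ln v A i := by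
  unfold eset
  ext j
  simp only [mem_filter, mem_range]
  constructor
  · rintro ⟨⟨h1, h2⟩, h3⟩; exact ⟨h3, h2⟩
  · rintro ⟨h1, h2⟩; exact ⟨⟨by omega, h2⟩, h1⟩

theorem main (hS : S_SLACK) (hU : S_UNIQ) (hR : S_EDGER) (hD : S_EDGED) (hT : S_STEP)
    (hE : S_EPS) (hP : S_POS) (hK : S_RANK) (hN : S_CNT) (hG : S_REG) (hM : S_RAM) : S_MAIN := by
  intro m B hm hB r hr
  have hk1 : 1 ≤ (5 * B) ^ m := Nat.one_le_pow _ _ (by omega)
  generalize hkk : (5 * B) ^ m = k at hk1 ⊢
  obtain ⟨a, p, ha, hpk, hY⟩ := hM m k hk1 r hr
  obtain ⟨W, st, ln, o, hW, hC, hO, hreg⟩ := hG m B hm hB p (by rw [hkk]; exact hpk)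
  rw [hkk] at hC hO
  obtain ⟨F, hF0, hF1, hF2⟩ := hN W B hW
  set L : ℕ := (2 * W - 1) * B with hL
  set name : (Fin k × Bool) ⊕ (Fin k × Bool) → ℕ := fun t => a (pos k st ln o t) with hname
  have hninj : Function.Injective name := ha.injective.comp (hP k st ln o hC hO)
  have hposinj := hP k st ln o hC hO
  -- the key step
  have key : ∀ v : ℕ → Bool, (∀ t < k, ln t = L → 1 ≤ F (eset st ln v (st t) L)) → ∀ q : Fin m,
      ∃ t : Fin k, ln t = L ∧ eps st ln v t = 1 ∧
        (eset st ln v (st t) (t - st t)).card < W ∧
        r q (offer k st ln name v) = name (prim k v t) := by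
    intro v hv q
    obtain ⟨hq1, hq2, hq3⟩ := hreg q
    have hsub : eset st ln v (st (p q)) L ⊆ range L := filter_subset _ _
    have hWc : W ≤ ((Ico (st (p q)) (st (p q) + ln (p q))).filter
        (fun t => eps st ln v t = 1)).card := by
      rw [hq1, card_Ico_filter]
      exact hF1 _ hsub (hv (p q) (hpk q) hq1)
    obtain ⟨t, ht1, ht2, ht3, ht4⟩ := hK k st ln o hC hO v W (p q) (hpk q) hWc hq2 hq3
    have hlnt : ln t = L := by
      have hst : st (p q) ≤ p q := hC.le _ (hpk q)
      have h1 := hC.same t t.2 (st t) le_rfl (lt_of_le_of_lt (hC.le t t.2) (hC.lt t t.2))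
      have h2 := hC.same (p q) (hpk q) (st (p q)) le_rfl (lt_of_le_of_lt hst (hC.lt _ (hpk q)))
      rw [← h1.2, ht1, h2.2, hq1]
    have hle : st t ≤ t := hC.le t t.2
    refine ⟨t, hlnt, ht2, ?_, ?_⟩
    · have := card_Ico_filter st ln v (st t) (t - st t)
      rw [show st t + (t - st t) = (t : ℕ) by omega] at this
      rw [← this]; exact ht3
    · set Y : Finset ℕ := univ.image (fun u : Fin k => pos k st ln o (cand k st ln v u)) with hYdef
      have hinjc : Function.Injective (fun u : Fin k => pos k st ln o (cand k st ln v u)) :=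
        fun u w h => cand_inj v (hposinj h)
      have hYc : Y.card = k := by
        rw [hYdef, card_image_of_injective _ hinjc, card_univ, Fintype.card_fin]
      obtain ⟨y, hyY, hy1, hy2⟩ := hY q Y hYc
      have hoff : offer k st ln name v = Y.image (fun y => (a y, (1 : ℚ))) := by
        unfold offer
        rw [hYdef, image_image]
        rfl
      have hyt : y = pos k st ln o (cand k st ln v t) := by
        apply rank_unique Y hyY (mem_image_of_mem _ (mem_univ t))
        rw [hy2, ← ht4, hYdef, filter_image, card_image_of_injective _ hinjc]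
      rw [hoff, hy1, hyt]
      have : cand k st ln v t = prim k v t := by unfold cand; rw [if_pos ht2]
      rw [this]
  refine ⟨chainLP k st, name, hninj, ?_, ?_, ?_, ?_⟩
  · rintro ⟨i, b⟩ ⟨j, c⟩
    cases b <;> cases c <;> simp only [chainLP] <;> (try split_ifs) <;> norm_num
  · rintro ⟨i, b⟩
    cases b <;> simp only [chainLP]
    · refine ⟨by simp only [Bool.false_eq_true, if_false]; exact one_le_pow₀ (by norm_num), ?_⟩
      simp only [Bool.false_eq_true, if_false]
      apply pow_le_pow_right₀ (by norm_num)
      have := i.2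
      omega
    · simp only [if_true]
      exact ⟨le_refl _, one_le_pow₀ (by norm_num)⟩
  · rintro ⟨j, c⟩
    cases c <;> simp [chainLP]
  · -- the invariant
    have inv : ∀ (l : ℕ) (x : ℕ → Fin k × Bool → ℚ), l < 2 ^ B - 1 → x 0 = 0 →
        (∀ t < l, ∃ q, (chainLP k st).Pivot name (r q) (x t) (x (t + 1))) →
        ∃ v, x l = vert k st v ∧
          ∀ t < k, ln t = L → 2 ^ B ≤ F (eset st ln v (st t) L) + l + 1 := by
      intro l x hl h0 hx
      induction l with
      | zero =>
        refine ⟨fun _ => false, ?_, ?_⟩
        · rw [h0]; funext j; simp [vert]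
        · intro t ht hlt
          have : eset st ln (fun _ => false) (st t) L = range L := by
            unfold eset
            rw [filter_true_of_mem]
            intro i _
            simp [eps, sgn]
          rw [this]; omega
      | succ l ih =>
        obtain ⟨v, hxv, hv⟩ := ih (by omega) (fun t ht => hx t (by omega))
        obtain ⟨q, hq⟩ := hx l (by omega)
        have hv1 : ∀ t < k, ln t = L → 1 ≤ F (eset st ln v (st t) L) := by
          intro t ht hlt
          have := hv t ht hlt
          omega
        obtain ⟨t, hlt, heps, hcard, hrq⟩ := key v hv1 q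
        rw [hxv] at hq
        rw [pivot_iff hS hU hR hD hT hE hC name hninj (r q) v t heps hrq] at hq
        refine ⟨flipBit v t, hq, ?_⟩
        intro u hu hlu
        have hu1 := hv u hu hlu
        have hstt : st t ≤ t := hC.le t t.2
        have htlt : (t : ℕ) < st t + L := by rw [← hlt]; exact hC.lt t t.2
        have htop : st t + L ≤ k := by rw [← hlt]; exact hC.top t t.2
        have heq := (hE k st ln hC v).2 t t.2
        have hpm := (hE k st ln hC v).1
        by_cases hst : st u = st t
        · rw [hst] at hu1 ⊢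
          have hsame : ∀ j < L, st (st t + j) = st t := fun j hj =>
            (hC.same t t.2 (st t + j) (by omega) (by rw [hlt]; omega)).1
          have hstep := hF2 (eset st ln v (st t) L) (eset st ln (flipBit v t) (st t) L)
            (t - st t) (filter_subset _ _) (filter_subset _ _) ?_ ?_ ?_ ?_
          · omega
          · unfold eset
            rw [mem_filter, mem_range, show st t + (t - st t) = (t : ℕ) by omega]
            exact ⟨by omega, heps⟩
          · rw [eset_filter _ _ _ _ _ _ (by omega)]; exact hcard
          · intro j hj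
            unfold eset
            rw [mem_filter, mem_filter, mem_range,
              heq (st t + j) (by omega), if_pos ⟨hsame j (by omega), by omega⟩]
            rcases hpm (st t + j) with h | h <;> rw [h] <;> constructor <;> intro h'
            · norm_num at h'
            · exact absurd ⟨by omega, rfl⟩ h'
            · rintro ⟨-, h3⟩; norm_num at h3
            · exact ⟨by omega, by norm_num⟩
          · intro j hj
            unfold eset
            rw [mem_filter, mem_filter, mem_range]
            constructor <;> rintro ⟨h1, h2⟩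
            · rw [heq (st t + j) (by omega), if_neg (by omega)] at h2
              exact ⟨h1, h2⟩
            · refine ⟨h1, ?_⟩
              rw [heq (st t + j) (by omega), if_neg (by omega)]
              exact h2
        · have : eset st ln (flipBit v t) (st u) L = eset st ln v (st u) L := by
            unfold eset
            apply filter_congr
            intro j hj
            rw [mem_range] at hj
            have hustt : st u + L ≤ k := by rw [← hlu]; exact hC.top u hu
            have hsu : st (st u + j) = st u :=
              (hC.same u hu (st u + j) (by omega) (by rw [hlu]; omega)).1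
            rw [heq (st u + j) (by omega), if_neg]
            rintro ⟨h1, -⟩
            exact hst (by rw [← hsu, h1])
          rw [this]; omega
    intro l x hl h0 hx
    obtain ⟨v, hxv, hv⟩ := inv l x hl h0 hx
    rw [hxv]
    refine ⟨vertex_vert hS hU hR hD hC v, fun q => ?_⟩
    have hv1 : ∀ t < k, ln t = L → 1 ≤ F (eset st ln v (st t) L) := by
      intro t ht hlt
      have := hv t ht hlt
      omega
    obtain ⟨t, hlt, heps, hcard, hrq⟩ := key v hv1 q
    exact ⟨vert k st (flipBit v t), (pivot_iff hS hU hR hD hT hE hC name hninj (r q) v t heps hrq _).2 rfl,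
      value_flip hS hU hR hD hT hE hC v t heps⟩

end Pool.Agent.W292.NR
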