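import Pool.Agent.W292.NR.Defs
set_option autoImplicit false

/-!
Statements of the parts of project NR.
-/

namespace Pool.Agent.W292.NR

open Finset

/-- slacks at the vertices -/
def S_SLACK : Prop := ∀ (k : ℕ) (st ln : ℕ → ℕ), Chains k st ln → ∀ (v : ℕ → Bool) (t : Fin k),
  1 ≤ wid st v t ∧
  (chainLP k st).slack (vert k st v) (Sum.inr (t, false)) = (if v t then wid st v t else 0) ∧
  (chainLP k st).slack (vert k st v) (Sum.inl (t, false)) = (if v t then 0 else wid st v t) ∧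
  (chainLP k st).slack (vert k st v) (Sum.inr (t, true)) = 0 ∧
  (chainLP k st).slack (vert k st v) (Sum.inl (t, true)) = 1

/-- the tight constraints are linearly independent -/
def S_UNIQ : Prop := ∀ (k : ℕ) (st ln : ℕ → ℕ), Chains k st ln → ∀ (v : ℕ → Bool)
  (z : Fin k × Bool → ℚ), (∀ t, (chainLP k st).rate z (prim k v t) = 0) →
  (∀ t : Fin k, (chainLP k st).rate z (Sum.inr (t, true)) = 0) → z = 0

/-- the edge of a real variable -/
def S_EDGER : Prop := ∀ (k : ℕ) (st ln : ℕ → ℕ), Chains k st ln → ∀ (v : ℕ → Bool) (t : Fin k),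
  (∀ u, (chainLP k st).rate (dirR k st v t) (prim k v u) = if u = t then 1 else 0) ∧
  (∀ u : Fin k, (chainLP k st).rate (dirR k st v t) (Sum.inr (u, true)) = 0) ∧
  (chainLP k st).value (dirR k st v t) = eps st ln v t

/-- the edge of a complement variable -/
def S_EDGED : Prop := ∀ (k : ℕ) (st ln : ℕ → ℕ), Chains k st ln → ∀ (v : ℕ → Bool) (t : Fin k),
  (∀ u, (chainLP k st).rate (dirD k st v t) (prim k v u) = 0) ∧
  (∀ u : Fin k, (chainLP k st).rate (dirD k st v t) (Sum.inr (u, true)) =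
    if u = t then 1 else 0) ∧
  (chainLP k st).value (dirD k st v t) = - eps st ln v t

/-- the step along the edge of a real variable -/
def S_STEP : Prop := ∀ (k : ℕ) (st ln : ℕ → ℕ), Chains k st ln → ∀ (v : ℕ → Bool) (t : Fin k),
  (∀ j, vert k st (flipBit v t) j = vert k st v j + wid st v t * dirR k st v t j) ∧
  ∀ s : ℚ, wid st v t < s →
    ¬ (chainLP k st).Feasible (fun j => vert k st v j + s * dirR k st v t j)

/-- signs after a flip -/
def S_EPS : Prop := ∀ (k : ℕ) (st ln : ℕ → ℕ), Chains k st ln → ∀ (v : ℕ → Bool),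
  (∀ t, eps st ln v t = 1 ∨ eps st ln v t = -1) ∧
  ∀ t < k, ∀ u < k, eps st ln (flipBit v t) u =
    if st u = st t ∧ u ≤ t then - eps st ln v u else eps st ln v u

/-- the positions are different -/
def S_POS : Prop := ∀ (k : ℕ) (st ln : ℕ → ℕ) (o : ℕ → Bool), Chains k st ln →
  OrientOK k st ln o → Function.Injective (pos k st ln o)

/-- the candidate of a given rank -/
def S_RANK : Prop := ∀ (k : ℕ) (st ln : ℕ → ℕ) (o : ℕ → Bool), Chains k st ln →
  OrientOK k st ln o → ∀ (v : ℕ → Bool) (W a : ℕ), a < k →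
  W ≤ ((Ico (st a) (st a + ln a)).filter (fun t => eps st ln v t = 1)).card →
  (o a = false → a < st a + W) → (o a = true → st a + ln a ≤ a + W) →
  ∃ t : Fin k, st t = st a ∧ eps st ln v t = 1 ∧
    ((Ico (st t) (t : ℕ)).filter (fun u => eps st ln v u = 1)).card < W ∧
    (univ.filter (fun u : Fin k =>
      pos k st ln o (cand k st ln v u) < pos k st ln o (cand k st ln v t))).card = a

/-- the counter: a potential that drops by at most one at each move -/
def S_CNT : Prop := ∀ W B : ℕ, 1 ≤ W → ∃ F : Finset ℕ → ℕ,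
  2 ^ B ≤ F (range ((2 * W - 1) * B)) + 1 ∧
  (∀ E : Finset ℕ, E ⊆ range ((2 * W - 1) * B) → 1 ≤ F E → W ≤ E.card) ∧
  ∀ (E E' : Finset ℕ) (i : ℕ), E ⊆ range ((2 * W - 1) * B) → E' ⊆ range ((2 * W - 1) * B) →
    i ∈ E → (E.filter (fun j => j < i)).card < W →
    (∀ j, j ≤ i → (j ∈ E' ↔ j ∉ E)) → (∀ j, i < j → (j ∈ E' ↔ j ∈ E)) → F E ≤ F E' + 1

/-- the choice of the chains -/
def S_REG : Prop := ∀ (m B : ℕ), 1 ≤ m → 1 ≤ B → ∀ p : Fin m → ℕ, (∀ q, p q < (5 * B) ^ m) →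
  ∃ (W : ℕ) (st ln : ℕ → ℕ) (o : ℕ → Bool), 1 ≤ W ∧ Chains ((5 * B) ^ m) st ln ∧
    OrientOK ((5 * B) ^ m) st ln o ∧ ∀ q, ln (p q) = (2 * W - 1) * B ∧
      (o (p q) = false → p q < st (p q) + W) ∧
      (o (p q) = true → st (p q) + ln (p q) ≤ p q + W)

/-- Ramsey: on some infinite set of names each of the rules chooses, from every set of `k` names
with all reduced costs `1`, the name of a fixed rank -/
def S_RAM : Prop := ∀ (m k : ℕ), 1 ≤ k → ∀ r : Fin m → Finset (ℕ × ℚ) → ℕ,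
  (∀ q S, S.Nonempty → ∃ c, (r q S, c) ∈ S) →
  ∃ (a : ℕ → ℕ) (p : Fin m → ℕ), StrictMono a ∧ (∀ q, p q < k) ∧
    ∀ (q : Fin m) (Y : Finset ℕ), Y.card = k → ∃ y ∈ Y,
      r q (Y.image (fun y => (a y, (1 : ℚ)))) = a y ∧ (Y.filter (fun u => u < y)).card = p q

/-- every path of less than `T` pivots, each of them made by one of the rules, can be continued by
each of the rules -/
def Slow {κ ι : Type} [Fintype κ] [Fintype ι] (m T : ℕ) (r : Fin m → Finset (ℕ × ℚ) → ℕ)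
    (P : LP κ ι) (name : κ ⊕ ι → ℕ) : Prop :=
  ∀ (l : ℕ) (x : ℕ → ι → ℚ), l < T → x 0 = 0 →
    (∀ t < l, ∃ q, P.Pivot name (r q) (x t) (x (t + 1))) →
    P.Vertex (x l) ∧ ∀ q, ∃ y, P.Pivot name (r q) (x l) y ∧ P.value (x l) < P.value y

/-- main theorem, index set `Fin k × Bool` -/
def S_MAIN : Prop := ∀ (m B : ℕ), 1 ≤ m → 1 ≤ B → ∀ r : Fin m → Finset (ℕ × ℚ) → ℕ,
  (∀ q S, S.Nonempty → ∃ c, (r q S, c) ∈ S) →
  ∃ (P : LP (Fin ((5 * B) ^ m) × Bool) (Fin ((5 * B) ^ m) × Bool))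
    (name : (Fin ((5 * B) ^ m) × Bool) ⊕ (Fin ((5 * B) ^ m) × Bool) → ℕ),
    Function.Injective name ∧ (∀ i j, |P.A i j| ≤ 2) ∧
    (∀ i, 1 ≤ P.b i ∧ P.b i ≤ 3 ^ ((5 * B) ^ m)) ∧ (∀ j, |P.c j| = 1) ∧
    Slow m (2 ^ B - 1) r P name

/-- relabelling rows and variables -/
def S_TRANS : Prop := ∀ (ι : Type) [Fintype ι] (n m T : ℕ) (e : ι ≃ Fin n)
  (r : Fin m → Finset (ℕ × ℚ) → ℕ) (P : LP ι ι) (name : ι ⊕ ι → ℕ), Slow m T r P name →
  Slow m T r
    (⟨fun i j => P.A (e.symm i) (e.symm j), fun i => P.b (e.symm i), fun j => P.c (e.symm j)⟩ :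
      LP (Fin n) (Fin n))
    (fun t => name (Sum.map e.symm e.symm t))

end Pool.Agent.W292.NR
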